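import Pool.Agent.H36.NAA.Uni

set_option autoImplicit false

/-!
# Characteristic representations of free groups of rank at least three are virtually unipotent
-/

namespace Pool.Agent.Results.MP_b319aa_al.CharacteristicReps

/-- Let `n ≥ 3` and let `ρ : F_n → GL_d(ℂ)` be conjugate in `GL_d(ℂ)` to `ρ ∘ σ` for every
automorphism `σ` of `F_n`. Then there are a characteristic subgroup `K` of finite index in `F_n`
and `P` in `GL_d(ℂ)` such that `P ρ(w) P⁻¹` is upper unitriangular for all `w` in `K`; in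
particular `ρ(K)` is solvable. -/
theorem result (n d : ℕ) (hn : 3 ≤ n)
    (ρ : FreeGroup (Fin n) →* Matrix.GeneralLinearGroup (Fin d) ℂ)
    (hρ : ∀ σ : FreeGroup (Fin n) ≃* FreeGroup (Fin n),
      ∃ g : Matrix.GeneralLinearGroup (Fin d) ℂ,
        ∀ x : FreeGroup (Fin n), ρ (σ x) = g * ρ x * g⁻¹) :
    ∃ K : Subgroup (FreeGroup (Fin n)), K.FiniteIndex ∧ K.Characteristic ∧
      Group.IsSolvable (K.map ρ) ∧
      ∃ P : Matrix.GeneralLinearGroup (Fin d) ℂ, ∀ w ∈ K, ∀ i j : Fin d, j ≤ i →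
        ((P * ρ w * P⁻¹ : Matrix.GeneralLinearGroup (Fin d) ℂ) :
          Matrix (Fin d) (Fin d) ℂ) i j = if i = j then 1 else 0 :=
  H36NA.chr_uni hn ρ hρ

end Pool.Agent.Results.MP_b319aa_al.CharacteristicReps
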